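import Pool.Agent.X23.L3.Fin

/-!
# MP_688354_co: `L_3 = 2/3` and `L_d = 1` for every `d ≥ 4`

`L d` is the supremum, over all centrally symmetric convex polytopes `P` in `ℝ^d` with nonempty
interior, of (least number of boundary points of `P` meeting every facet) / (number of facets).
Together with the known values `L_1 = 1`, `L_2 = 1/2` this determines all the numbers `L_d`.
-/

set_option autoImplicit false

namespace Pool.Agent.Results.MP_688354_co.ExactValues

open Pool.Agent.X23.FR

theorem result : L 3 = 2 / 3 ∧ ∀ d : ℕ, 4 ≤ d → L d = 1 :=
  ⟨Pool.Agent.X23.L3.L_three, fun _ hd => main hd⟩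

end Pool.Agent.Results.MP_688354_co.ExactValues
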